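import Mathlib

set_option autoImplicit false

namespace Pool.Agent.H.MP_ca490d_an

open Set Filter Topology
open scoped ENNReal

variable {X : Type} [NormedAddCommGroup X] [NormedSpace ℂ X]

noncomputable def bid (x : X) : WeakDual ℂ (StrongDual ℂ X) :=
  StrongDual.toWeakDual (NormedSpace.inclusionInDoubleDual ℂ X x)

noncomputable def distX (z : WeakDual ℂ (StrongDual ℂ X)) : ℝ≥0∞ :=
  Metric.infEDist (WeakDual.toStrongDual z) (range (NormedSpace.inclusionInDoubleDual ℂ X))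

noncomputable def omega (A : Set X) : ℝ≥0∞ :=
  ⨅ L ∈ {L : Set X | IsCompact (toWeakSpace ℂ X '' L)}, ⨆ a ∈ A, Metric.infEDist a L

noncomputable def wk (A : Set X) : ℝ≥0∞ := ⨆ z ∈ closure (bid '' A), distX z

noncomputable def wck (A : Set X) : ℝ≥0∞ :=
  ⨆ x ∈ {x : ℕ → X | ∀ n, x n ∈ A}, ⨅ z ∈ {z | MapClusterPt z atTop (bid ∘ x)}, distX z

end Pool.Agent.H.MP_ca490d_an
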