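import Mathlib
import Pool.Agent.H.MP_ca490d_an.Defs

set_option autoImplicit false

namespace Pool.Agent.H.MP_ca490d_an

open Set Filter Topology
open scoped ENNReal

variable {X : Type} [NormedAddCommGroup X] [NormedSpace ℂ X]

theorem distX_le {z : WeakDual ℂ (StrongDual ℂ X)} {r : ℝ} (hr : 0 ≤ r) (g : X)
    (h : ∀ φ : StrongDual ℂ X, ‖z φ - φ g‖ ≤ r * ‖φ‖) : distX z ≤ ENNReal.ofReal r := by
  refine (Metric.infEDist_le_edist_of_mem (mem_range_self g)).trans ?_
  rw [edist_dist, dist_eq_norm]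
  exact ENNReal.ofReal_le_ofReal (ContinuousLinearMap.opNorm_le_bound _ hr h)

theorem tendsto_bid {ι : Type} {l : Filter ι} {f : ι → X} {z : WeakDual ℂ (StrongDual ℂ X)}
    (h : Tendsto (bid ∘ f) l (𝓝 z)) (φ : StrongDual ℂ X) :
    Tendsto (fun a => φ (f a)) l (𝓝 (z φ)) :=
  ((WeakDual.eval_continuous φ).tendsto z).comp h

theorem wk_le {ι : Type} (f : ι → X) {r : ℝ} (hr : 0 ≤ r)
    (h : ∀ U : Ultrafilter ι, ∃ g : X, ∀ φ : StrongDual ℂ X, ∀ ε, 0 < ε →
      ∀ᶠ a in U, ‖φ (f a) - φ g‖ ≤ r * ‖φ‖ + ε) : wk (range f) ≤ ENNReal.ofReal r := by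
  refine iSup₂_le fun z hz => ?_
  rw [← range_comp] at hz
  haveI : (comap (bid ∘ f) (𝓝 z)).NeBot := comap_neBot fun t ht => by
    obtain ⟨_, h1, a, rfl⟩ := mem_closure_iff_nhds.1 hz t ht
    exact ⟨a, h1⟩
  obtain ⟨g, hg⟩ := h (Ultrafilter.of (comap (bid ∘ f) (𝓝 z)))
  refine distX_le hr g fun φ => le_of_forall_pos_le_add fun ε hε => ?_
  have h1 := tendsto_bid (tendsto_comap.mono_left (Ultrafilter.of_le (comap (bid ∘ f) (𝓝 z)))) φ
  exact le_of_tendsto (h1.sub_const (φ g)).norm (hg φ ε hε)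

theorem le_omega {A : Set X} {r : ℝ}
    (h : ∀ L : Set X, IsCompact (toWeakSpace ℂ X '' L) → ∀ s, (∀ a ∈ A, ∃ g ∈ L, ‖a - g‖ ≤ s) →
      r ≤ s) : ENNReal.ofReal r ≤ omega A := by
  refine le_iInf₂ fun L hL => not_lt.1 fun hc => ?_
  obtain ⟨s, hs, h1, h2⟩ := ENNReal.lt_iff_exists_real_btwn.1 hc
  refine absurd (h L hL s fun a ha => ?_) (not_le.2 ((ENNReal.ofReal_lt_ofReal_iff_of_nonneg hs).1 h2))
  obtain ⟨g, hg, h3⟩ := Metric.infEDist_lt_iff.1
    ((le_iSup₂ (f := fun a (_ : a ∈ A) => Metric.infEDist a L) a ha).trans_lt h1)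
  rw [edist_lt_ofReal, dist_eq_norm] at h3
  exact ⟨g, hg, h3.le⟩

theorem weak_lim {ι : Type} {L : Set X} (hL : IsCompact (toWeakSpace ℂ X '' L)) (U : Ultrafilter ι)
    (G : ι → L) : ∃ g : L, ∀ φ : StrongDual ℂ X, Tendsto (fun i => φ (G i)) U (𝓝 (φ g)) := by
  obtain ⟨_, ⟨g, hg, rfl⟩, h⟩ := hL.ultrafilter_le_nhds (U.map fun i => toWeakSpace ℂ X (G i))
    (by
      rw [Ultrafilter.coe_map, le_principal_iff, mem_map]
      exact univ_mem' fun i => ⟨_, (G i).2, rfl⟩)
  exact ⟨⟨g, hg⟩, fun φ =>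
    ((WeakBilin.eval_continuous (topDualPairing ℂ X).flip φ).tendsto _).comp h⟩

theorem star_lim {ι : Type} (U : Ultrafilter ι) {C : ℝ} (ψ : ι → {φ : StrongDual ℂ X // ‖φ‖ ≤ C}) :
    ∃ χ : {φ : StrongDual ℂ X // ‖φ‖ ≤ C}, ∀ x, Tendsto (fun i => (ψ i).1 x) U (𝓝 (χ.1 x)) := by
  obtain ⟨χ, h1, h⟩ := (WeakDual.isCompact_closedBall (0 : StrongDual ℂ X) C).ultrafilter_le_nhds
    (U.map fun i => StrongDual.toWeakDual (ψ i).1) (by
      rw [Ultrafilter.coe_map, le_principal_iff, mem_map]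
      exact univ_mem' fun i => by simpa using (ψ i).2)
  exact ⟨⟨WeakDual.toStrongDual χ, by simpa using h1⟩, fun x =>
    ((WeakDual.eval_continuous x).tendsto _).comp h⟩

theorem small_of_chain {D : Type} [Nonempty D] (W : D → X → D → Prop) (C : ℕ → ℝ)
    (hC : ∀ δ, 0 < δ → ∃ m : ℕ, C m < δ * m)
    (h : ∀ (d : ℕ → D) (w : ℕ → X) (θ : ℕ → ℂ), (∀ i, W (d i) (w i) (d (i + 1))) →
      (∀ i, ‖θ i‖ = 1) → ∀ m, ‖∑ i ∈ Finset.range m, θ i • w i‖ ≤ C m)
    (φ : StrongDual ℂ X) {ε : ℝ} (hε : 0 < ε) : ∃ d, ∀ w d', W d w d' → ‖φ w‖ ≤ ε := by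
  by_contra hc
  push Not at hc
  choose w nx h1 h2 using hc
  let d : ℕ → D := fun i => nx^[i] (Classical.arbitrary D)
  choose θ h3 h4 using fun i => Complex.exists_norm_eq_mul_self (φ (w (d i)))
  obtain ⟨m, hm⟩ := hC (ε / (‖φ‖ + 1)) (by positivity)
  have h5 := h d (fun i => w (d i)) θ (fun i => by
    simp only [d, Function.iterate_succ_apply']; exact h1 _) h3 m
  have h6 : (m : ℝ) * ε ≤ ‖φ (∑ i ∈ Finset.range m, θ i • w (d i))‖ := by
    have : φ (∑ i ∈ Finset.range m, θ i • w (d i)) =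
        ((∑ i ∈ Finset.range m, ‖φ (w (d i))‖ : ℝ) : ℂ) := by
      rw [map_sum, Complex.ofReal_sum]
      exact Finset.sum_congr rfl fun i _ => by rw [map_smul, smul_eq_mul, h4]
    rw [this, Complex.norm_real, Real.norm_of_nonneg (by positivity)]
    simpa using Finset.card_nsmul_le_sum (Finset.range m) _ ε fun i _ => (h2 (d i)).le
  have h7 := φ.le_opNorm (∑ i ∈ Finset.range m, θ i • w (d i))
  have h8 := mul_le_mul (le_add_of_nonneg_right zero_le_one : ‖φ‖ ≤ ‖φ‖ + 1) h5 (norm_nonneg _)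
    (by positivity)
  rw [div_mul_eq_mul_div, lt_div_iff₀ (by positivity)] at hm
  linarith

def sg (a : ℕ → ℕ) (l : ℕ) : ℕ := ∑ i ∈ Finset.range l, a i

theorem sg_mono (a : ℕ → ℕ) : Monotone (sg a) := fun _ _ h =>
  Finset.sum_le_sum_of_subset (Finset.range_mono h)

noncomputable def cnt (b : ℕ → Bool) (j : ℕ) : ℝ := ∑ i ∈ Finset.range j, if b i then 1 else 0

noncomputable def val (n : ℕ) (a : ℕ → ℕ) (b : ℕ → Bool) : ℝ :=
  ∑ l ∈ Finset.range n, min 1 (min (n : ℝ) (cnt b (sg a (l + 1))) - min (n : ℝ) (cnt b (sg a l)))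

theorem cnt_upd (b : ℕ → Bool) {j : ℕ} (hb : b j = false) (m : ℕ) :
    cnt (Function.update b j true) m = cnt b m + if j < m then 1 else 0 := by
  induction m with
  | zero => simp [cnt]
  | succ m ih =>
    unfold cnt at *
    rw [Finset.sum_range_succ, Finset.sum_range_succ, ih]
    rcases lt_trichotomy j m with h | rfl | h
    · simp [h, h.ne', Nat.lt_succ_of_lt h, add_right_comm]
    · simp [hb]
    · simp [h.ne, not_lt.2 h.le, show ¬ j < m + 1 by omega]

theorem cnt_upd' (b : ℕ → Bool) {j m : ℕ} (h : m ≤ j) :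
    cnt (Function.update b j true) m = cnt b m :=
  Finset.sum_congr rfl fun i hi => by
    rw [Function.update_of_ne ((Finset.mem_range.1 hi).trans_le h).ne]

theorem cnt_const (b : ℕ → Bool) {p m : ℕ} (hb : ∀ i, p ≤ i → b i = false) (h : p ≤ m) :
    cnt b m = cnt b p := by
  induction m, h using Nat.le_induction with
  | base => rfl
  | succ m h ih => unfold cnt at *; rw [Finset.sum_range_succ, ih, hb m h]; simp

theorem sg_upd (a : ℕ → ℕ) (l i : ℕ) {k : ℕ} (h : k ≤ l) : sg (Function.update a l i) k = sg a k :=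
  Finset.sum_congr rfl fun j hj => by
    rw [Function.update_of_ne ((Finset.mem_range.1 hj).trans_le h).ne]

theorem omega_ge (n : ℕ) (f : (ℕ → ℕ) → X) (ev : (ℕ → Bool) → {φ : StrongDual ℂ X // ‖φ‖ ≤ 1})
    (hf : ∀ a b, (ev b).1 (f a) = val n a b) : ENNReal.ofReal (n / 2) ≤ omega (range f) := by
  refine le_omega fun L hL s hs => ?_
  choose g hg hgs using fun a => hs (f a) ⟨a, rfl⟩
  let U := hyperfilter ℕ
  have hU : (U : Filter ℕ) ≤ atTop := Nat.cofinite_eq_atTop ▸ hyperfilter_le_cofinite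
  choose lw hlw using weak_lim hL U
  choose ls hls using star_lim (X := X) (C := 1) U
  let G : ℕ → (ℕ → ℕ) → L := fun d => Nat.rec (fun a => ⟨g a, hg a⟩)
    (fun d G a => lw fun i => G (Function.update a (n - d - 1) i)) d
  let E : ℕ → (ℕ → Bool) → {φ : StrongDual ℂ X // ‖φ‖ ≤ 1} := fun d => Nat.rec ev
    (fun _ E b => ls fun j => E (Function.update b j true)) d
  have hG : ∀ d a (φ : StrongDual ℂ X) (v : ℂ),
      (∀ᶠ i in atTop, ‖φ (G d (Function.update a (n - d - 1) i)).1 - v‖ ≤ s) →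
      ‖φ (G (d + 1) a).1 - v‖ ≤ s := fun d a φ v h =>
    le_of_tendsto ((hlw _ φ).sub_const v).norm (hU h)
  have hE : ∀ d b (x : X) (v : ℂ) (t : ℝ),
      (∀ᶠ j in atTop, ‖(E d (Function.update b j true)).1 x - v‖ ≤ t) →
      ‖(E (d + 1) b).1 x - v‖ ≤ t := fun d b x v t h =>
    le_of_tendsto ((hls _ x).sub_const v).norm (hU h)
  have hEf : ∀ d a b, ‖(E d b).1 (f a) - val n a b‖ ≤ 0 := by
    intro d a
    induction d with
    | zero => intro b; exact le_of_eq (norm_eq_zero.2 (sub_eq_zero.2 (hf a b)))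
    | succ d ih =>
      intro b
      refine hE d b _ _ _ ?_
      filter_upwards [eventually_ge_atTop (sg a n)] with j hj
      have : val n a (Function.update b j true) = val n a b :=
        Finset.sum_congr rfl fun l hl => by
          have hl' := Finset.mem_range.1 hl
          rw [cnt_upd' b ((sg_mono a hl').trans hj), cnt_upd' b ((sg_mono a hl'.le).trans hj)]
      rw [← this]; exact ih _
  have base : ∀ e a b, ‖(E e b).1 (G 0 a).1 - val n a b‖ ≤ s := by
    intro e a b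
    rw [← sub_eq_zero.1 (norm_le_zero_iff.1 (hEf e a b)), ← map_sub, ← neg_sub, map_neg, norm_neg]
    exact ((E e b).1.le_opNorm _).trans
      ((mul_le_of_le_one_left (norm_nonneg _) (E e b).2).trans (hgs a))
  have h0 : ∀ d a, ‖(E n fun _ => false).1 (G d a).1 - 0‖ ≤ s := by
    intro d
    induction d with
    | zero => intro a; simpa [val, cnt] using base n a fun _ => false
    | succ d ih => exact fun a => hG d a _ _ (Eventually.of_forall fun i => ih _)
  have h1 : ∀ d, d ≤ n → ∀ a b, (∀ i, i ≤ n - d → cnt b (sg a i) = i) →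
      (∀ i, sg a (n - d) ≤ i → b i = false) → ‖(E d b).1 (G d a).1 - n‖ ≤ s := by
    intro d
    induction d with
    | zero =>
      intro _ a b h2 _
      have : val n a b = n := by
        rw [val, Finset.sum_congr rfl (g := fun _ => 1)]
        · simp
        intro l hl
        have hl' := Finset.mem_range.1 hl
        rw [h2 _ hl', h2 _ hl'.le, min_eq_right (Nat.cast_le.2 hl'),
          min_eq_right (Nat.cast_le.2 hl'.le)]
        simp
      simpa [this] using base 0 a b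
    | succ d ih =>
      intro hd a b h2 h3
      rw [Nat.sub_add_eq] at h2 h3
      refine hE d b _ _ _ ?_
      filter_upwards [eventually_ge_atTop (sg a (n - d - 1))] with j hj
      refine hG d a _ _ ?_
      filter_upwards [eventually_gt_atTop j] with i hi
      have e1 : n - d = n - d - 1 + 1 := by omega
      have e2 : sg (Function.update a (n - d - 1) i) (n - d) = sg a (n - d - 1) + i := by
        conv_lhs => rw [e1]
        rw [sg, Finset.sum_range_succ, ← e1, Function.update_self]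
        exact congrArg (· + i) (sg_upd a _ i le_rfl)
      refine ih (by omega) _ _ (fun k hk => ?_) fun k hk => ?_
      · rcases eq_or_lt_of_le hk with rfl | hk
        · rw [e2, cnt_upd b (h3 j hj), if_pos (by omega), cnt_const b h3 (Nat.le_add_right _ _),
            h2 _ le_rfl]
          conv_rhs => rw [e1]
          push_cast; rfl
        · rw [sg_upd a _ i (by omega), cnt_upd' b ((sg_mono a (by omega)).trans hj), h2 k (by omega)]
      · rw [e2] at hk
        rw [Function.update_of_ne (by omega)]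
        exact h3 k ((Nat.le_add_right _ _).trans hk)
  have h2 := h1 n le_rfl (fun _ => 0) (fun _ => false) (by simp [cnt]) (by simp)
  have h3 := h0 n fun _ => 0
  have h4 := norm_sub_le ((E n fun _ => false).1 (G n fun _ => 0).1 - 0)
    ((E n fun _ => false).1 (G n fun _ => 0).1 - n)
  simp only [sub_zero, sub_sub_cancel, Complex.norm_natCast] at h3 h4
  linarith

theorem uf_dich {ι : Type} (U : Ultrafilter ι) (k : ι → ℕ) :
    (∃ m, ∀ᶠ a in U, k a = m) ∨ ∀ m, ∀ᶠ a in U, m ≤ k a := by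
  by_contra h
  push Not at h
  obtain ⟨h1, m, h2⟩ := h
  have : ⋃ i ∈ Iio m, {a | k a = i} ∈ U := mem_of_superset h2 fun a ha => by simpa using ha
  obtain ⟨i, -, hi⟩ := (Ultrafilter.finite_biUnion_mem_iff (finite_Iio m)).1 this
  exact ((h1 i).and hi).exists.elim fun a ha => ha.1 ha.2

theorem wk_le_one {T : Type} (n : ℕ) (ι : T → StrongDual ℂ X)
    (hι : ∀ x C, 0 ≤ C → (∀ t, ‖ι t x‖ ≤ C) → ‖x‖ ≤ C) (S : ℕ → T → ℝ)
    (hS : ∀ t, Monotone fun j => S j t) (h0 : ∀ j t, 0 ≤ S j t) (h1 : ∀ j t, S j t ≤ n)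
    (τ : ℕ → ℕ → X) (hτ : ∀ p q t, ι t (τ p q) = (min 1 (S q t - S p t) : ℝ)) :
    wk (range fun a => ∑ l ∈ Finset.range n, τ (sg a l) (sg a (l + 1))) ≤ 1 := by
  classical
  rw [← ENNReal.ofReal_one]
  refine wk_le _ zero_le_one fun U => ?_
  let Fx : ℕ → Prop := fun l => ∃ m, ∀ᶠ a in U, sg a l = m
  have hFx : ∀ l l', l ≤ l' → Fx l' → Fx l := by
    rintro l l' h ⟨m, hm⟩
    refine (uf_dich U fun a => sg a l).resolve_right fun h2 => ?_
    obtain ⟨a, h3, h4⟩ := (hm.and (h2 (m + 1))).exists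
    have := sg_mono a h
    omega
  have hn : ∀ p q, p ≤ q → ∀ t, ‖ι t (τ p q)‖ ≤ 1 ∧ ‖ι t (τ p q)‖ ≤ S q t - S p t := by
    intro p q h t
    rw [hτ, Complex.norm_real, Real.norm_of_nonneg (le_min zero_le_one (sub_nonneg.2 (hS t h)))]
    exact ⟨min_le_left _ _, min_le_right _ _⟩
  have hfix : ∀ l, ∃ g : X, Fx (l + 1) → ∀ᶠ a in U, τ (sg a l) (sg a (l + 1)) = g := by
    intro l
    by_cases h : Fx (l + 1)
    · obtain ⟨p, hp⟩ := hFx l _ (Nat.le_succ l) h
      obtain ⟨q, hq⟩ := h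
      exact ⟨τ p q, fun _ => by filter_upwards [hp, hq] with a h2 h3; rw [h2, h3]⟩
    · exact ⟨0, fun h' => absurd h' h⟩
  choose g hg using hfix
  refine ⟨∑ l ∈ Finset.range n, if Fx (l + 1) then g l else 0, fun φ ε hε => ?_⟩
  obtain ⟨J, hJ⟩ := small_of_chain (fun p w q => p ≤ q ∧ ∀ t, ‖ι t w‖ ≤ S q t - S p t)
    (fun _ => n) (fun δ hδ => by
      obtain ⟨m, hm⟩ := exists_nat_gt (n / δ)
      exact ⟨m, by rwa [div_lt_iff₀' hδ] at hm⟩)
    (fun d w θ h2 h3 m => hι _ _ (by positivity) fun t => by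
      rw [map_sum]
      refine (norm_sum_le_of_le _ (n := fun i => S (d (i + 1)) t - S (d i) t) fun i _ => ?_).trans ?_
      · rw [map_smul, norm_smul, h3, one_mul]; exact (h2 i).2 t
      · rw [Finset.sum_range_sub (fun i => S (d i) t)]
        linarith [h0 (d 0) t, h1 (d m) t]) φ (show 0 < ε / (n + 1) by positivity)
  have key : ∀ l, ∀ᶠ a in U, ‖φ (τ (sg a l) (sg a (l + 1))) - φ (if Fx (l + 1) then g l else 0)‖ ≤
      (if Fx l ∧ ¬ Fx (l + 1) then ‖φ‖ else 0) + ε / (n + 1) := by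
    intro l
    by_cases h : Fx (l + 1)
    · filter_upwards [hg l h] with a ha
      simp only [ha, h, if_true, sub_self, norm_zero, not_true, and_false, if_false]
      positivity
    by_cases h' : Fx l
    · refine Eventually.of_forall fun a => ?_
      simp only [h, h', if_false, map_zero, sub_zero, not_false_eq_true, and_self, if_true]
      have := mul_le_of_le_one_right (norm_nonneg φ)
        (hι _ _ zero_le_one fun t => (hn _ _ (sg_mono a (Nat.le_succ l)) t).1)
      exact ((φ.le_opNorm _).trans this).trans (le_add_of_nonneg_right (by positivity))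
    · filter_upwards [(uf_dich U fun a => sg a l).resolve_left h' J] with a ha
      simp only [h, h', if_false, map_zero, sub_zero, false_and, zero_add]
      refine hJ _ (sg a (l + 1)) ⟨ha.trans (sg_mono a (Nat.le_succ l)), fun t => ?_⟩
      linarith [(hn _ _ (sg_mono a (Nat.le_succ l)) t).2, hS t ha]
  filter_upwards [(eventually_all_finset (Finset.range n)).2 fun l _ => key l] with a ha
  rw [map_sum, map_sum, ← Finset.sum_sub_distrib]
  refine (norm_sum_le_of_le _ ha).trans ?_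
  rw [Finset.sum_add_distrib, ← Finset.sum_filter, Finset.sum_const, Finset.sum_const,
    Finset.card_range, nsmul_eq_mul, nsmul_eq_mul]
  refine add_le_add (mul_le_mul_of_nonneg_right ?_ (norm_nonneg _)) ?_
  · refine Nat.cast_le_one.2 (Finset.card_le_one.2 fun l hl l' hl' => ?_)
    have h2 := (Finset.mem_filter.1 hl).2
    have h3 := (Finset.mem_filter.1 hl').2
    by_contra hc
    rcases lt_or_gt_of_ne hc with h | h
    · exact h2.2 (hFx _ _ h h3.1)
    · exact h3.2 (hFx _ _ h h2.1)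
  · rw [mul_div_assoc', div_le_iff₀ (by positivity)]
    nlinarith

end Pool.Agent.H.MP_ca490d_an
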