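import Mathlib
import Pool.Agent.H.MP_ca490d_an.A

set_option autoImplicit false

namespace Pool.Agent.H.MP_ca490d_an

open Set Filter Topology
open scoped ENNReal NNReal

variable {X : Type} [NormedAddCommGroup X] [NormedSpace ℂ X]

theorem ex_of {T : Type} (ι : T → StrongDual ℂ X) (hι1 : ∀ t, ‖ι t‖ ≤ 1)
    (hι : ∀ x C, 0 ≤ C → (∀ t, ‖ι t x‖ ≤ C) → ‖x‖ ≤ C) (u : ℕ → T → ℝ) (hu : ∀ j t, 0 ≤ u j t)
    (β : (ℕ → Bool) → T) (hβ : ∀ j b, u j (β b) = if b j then 1 else 0)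
    (τ : ℕ → ℕ → ℕ → X) (hτ : ∀ n p q t, ι t (τ n p q) = (min 1 (min (n : ℝ)
      (∑ i ∈ Finset.range q, u i t) - min (n : ℝ) (∑ i ∈ Finset.range p, u i t)) : ℝ))
    (c : ℝ≥0) : ∃ A : Set X, Bornology.IsBounded A ∧ wk A ≤ 1 ∧ c * wk A < omega A := by
  obtain ⟨n, hn⟩ := exists_nat_gt (2 * (c : ℝ))
  have hm : ∀ t, Monotone fun j => min (n : ℝ) (∑ i ∈ Finset.range j, u i t) := fun t _ _ h =>
    min_le_min_left _ (Finset.sum_le_sum_of_subset_of_nonneg (Finset.range_mono h)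
      fun i _ _ => hu i t)
  have h1 := wk_le_one n ι hι (fun j t => min (n : ℝ) (∑ i ∈ Finset.range j, u i t)) hm
    (fun j t => le_min (by positivity) (Finset.sum_nonneg fun i _ => hu i t))
    (fun j t => min_le_left _ _) (τ n) (hτ n)
  have h2 := omega_ge n (fun a => ∑ l ∈ Finset.range n, τ n (sg a l) (sg a (l + 1)))
    (fun b => ⟨ι (β b), hι1 _⟩) fun a b => by
      simp only [map_sum, hτ, hβ, val, cnt, Complex.ofReal_sum]
  refine ⟨_, isBounded_iff_forall_norm_le.2 ⟨n, ?_⟩, h1, lt_of_lt_of_le ?_ h2⟩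
  · rintro _ ⟨a, rfl⟩
    refine (norm_sum_le_of_le _ (n := fun _ => 1) fun l _ => hι _ _ zero_le_one fun t => ?_).trans
      (by simp)
    rw [hτ, Complex.norm_real, Real.norm_of_nonneg
      (le_min zero_le_one (sub_nonneg.2 (hm t (sg_mono a (Nat.le_succ l)))))]
    exact min_le_left _ _
  · refine (mul_le_of_le_one_right' h1).trans_lt ?_
    rw [← ENNReal.ofReal_coe_nnreal]
    exact (ENNReal.ofReal_lt_ofReal_iff_of_nonneg c.coe_nonneg).2 (by linarith)

theorem main_C (c : ℝ≥0) :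
    ∃ A : Set C(unitInterval, ℂ), Bornology.IsBounded A ∧ wk A ≤ 1 ∧ c * wk A < omega A := by
  have hp : Perfect (Icc (0 : ℝ) 1) := ⟨isClosed_Icc, isPreconnected_Icc.preperfect_of_nontrivial
    ⟨0, by simp, 1, by simp, zero_ne_one⟩⟩
  obtain ⟨f, h1, h2, h3⟩ := hp.exists_nat_bool_injection ⟨0, by simp⟩
  let β : (ℕ → Bool) → unitInterval := fun b => ⟨f b, h1 ⟨b, rfl⟩⟩
  have hβ : IsClosedEmbedding β := (h2.subtype_mk _).isClosedEmbedding
    fun a b h => h3 (congrArg Subtype.val h)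
  choose u hu hu' using fun j : ℕ => ContinuousMap.exists_extension_forall_mem_of_isClosedEmbedding
    (t := Ici (0 : ℝ)) ⟨fun b : ℕ → Bool => if b j then (1 : ℝ) else 0,
      (continuous_of_discreteTopology (f := fun x : Bool => if x then (1 : ℝ) else 0)).comp
        (continuous_apply j)⟩ (fun b => by simp only [ContinuousMap.coe_mk]; split_ifs <;> simp)
      nonempty_Ici hβ
  refine ex_of (fun t => ContinuousMap.evalCLM ℂ t) (fun t => ?_) (fun x C hC h => ?_)
    (fun j t => u j t) hu β (fun j b => congrFun (hu' j) b)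
    (fun n p q => ⟨fun t => (min 1 (min (n : ℝ) (∑ i ∈ Finset.range q, u i t) -
      min (n : ℝ) (∑ i ∈ Finset.range p, u i t)) : ℝ), by fun_prop⟩) (fun _ _ _ _ => rfl) c
  · exact ContinuousLinearMap.opNorm_le_bound _ zero_le_one fun x => by
      simpa using x.norm_coe_le_norm t
  · exact (ContinuousMap.norm_le _ hC).2 h

noncomputable abbrev Li := lp (fun _ : ℕ → Bool => ℂ) ∞

theorem main_L (c : ℝ≥0) :
    ∃ A : Set Li, Bornology.IsBounded A ∧ wk A ≤ 1 ∧ c * wk A < omega A := by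
  refine ex_of (fun t => lp.evalCLM ℂ (fun _ : ℕ → Bool => ℂ) ∞ t) (fun t => ?_)
    (fun x C hC h => lp.norm_le_of_forall_le hC h)
    (fun j t => if t j then 1 else 0) (fun j t => by split_ifs <;> simp) id (fun j b => rfl)
    (fun n p q => ⟨fun t => (min 1 (min (n : ℝ) (cnt t q) - min (n : ℝ) (cnt t p)) : ℝ),
      memℓp_infty ⟨n + 1, ?_⟩⟩) (fun _ _ _ _ => rfl) c
  · exact ContinuousLinearMap.opNorm_le_bound _ zero_le_one fun x => by
      rw [one_mul]; exact lp.norm_apply_le_norm ENNReal.top_ne_zero x t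
  · rintro _ ⟨t, rfl⟩
    have h0 : ∀ j, 0 ≤ min (n : ℝ) (cnt t j) := fun j =>
      le_min (by positivity) (Finset.sum_nonneg fun i _ => by split_ifs <;> simp)
    simp only [Complex.norm_real, Real.norm_eq_abs]
    refine abs_le.2 ⟨le_min (by linarith [(Nat.cast_nonneg n : (0 : ℝ) ≤ n)]) ?_,
      (min_le_left _ _).trans (by simp)⟩
    linarith [h0 q, min_le_left (n : ℝ) (cnt t p)]

end Pool.Agent.H.MP_ca490d_an
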